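import Pool.Agent.J4H38.GSX.Stm7
import Pool.Agent.J4H57.GS.Sub
import Pool.Agent.J4H6.GS6.Lines

/-! Project GS6, piece SUB2: as SUB with up to two shifts equal to zero (fourth moment of zeta). -/

set_option autoImplicit false

namespace Pool.Agent.J4H57.GS6

open MeasureTheory Set Filter Topology
open Pool.Agent.J4H38.GS Pool.Agent.J4H38.GSX Pool.Agent.J4H57.GS.Sub
open scoped ENNReal

noncomputable section

theorem zeta_meas : Measurable riemannZeta := by
  refine measurable_of_continuousOn_compl_singleton 1 fun s hs => ?_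
  exact (differentiableAt_riemannZeta hs).continuousAt.continuousWithinAt

/-- `(w - 1) ζ(w)` is entire -/
theorem zeta_entire : ∃ g : ℂ → ℂ, Differentiable ℂ g ∧ ∀ w : ℂ, w ≠ 1 → g w = (w - 1) * riemannZeta w := by
  refine ⟨Function.update (fun w => (w - 1) * riemannZeta w) 1 1, fun w => ?_, fun w hw => Function.update_of_ne hw _ _⟩
  have hd : ∀ w : ℂ, w ≠ 1 → DifferentiableAt ℂ (Function.update (fun w => (w - 1) * riemannZeta w) 1 1) w := by
    intro w hw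
    have h1 : DifferentiableAt ℂ (fun w => (w - 1) * riemannZeta w) w :=
      (differentiableAt_id.sub_const 1).mul (differentiableAt_riemannZeta hw)
    refine h1.congr_of_eventuallyEq ?_
    filter_upwards [isOpen_ne.mem_nhds hw] with z hz
    exact Function.update_of_ne hz _ _
  by_cases hw : w = 1
  · subst hw
    refine (Complex.analyticAt_of_differentiable_on_punctured_nhds_of_continuousAt ?_ ?_).differentiableAt
    · filter_upwards [self_mem_nhdsWithin] with z hz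
      exact hd z hz
    · rw [continuousAt_update_same]
      exact riemannZeta_residue_one
  · exact hd w hw

/-- the functions -/
def hl {k : ℕ} (l : ℕ) (S : Finset (Fin k)) (α : Fin k → ℝ) (w : ℂ) : ℂ := riemannZeta w ^ l * hS S α w

theorem hl_meas (hEZ : S_EZ) {k : ℕ} (l : ℕ) (S : Finset (Fin k)) :
    AEMeasurable (fun p : (Fin k → ℝ) × (ℝ × ℝ) => ‖hl l S p.1 (p.2.1 + p.2.2 * Complex.I)‖ₑ ^ 2)
      ((volume.restrict (cube k)).prod (volume.restrict {p : ℝ × ℝ | 1 / 2 < p.1})) := by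
  have h1 : Measurable (fun p : (Fin k → ℝ) × (ℝ × ℝ) => ‖riemannZeta (p.2.1 + p.2.2 * Complex.I) ^ l‖ₑ ^ 2) := by
    refine Measurable.pow_const (Measurable.enorm (Measurable.pow_const (zeta_meas.comp ?_) l)) 2
    exact Continuous.measurable (by fun_prop)
  have h2 := h1.aemeasurable.mul (hS_meas hEZ S)
  refine h2.congr (Eventually.of_forall fun p => ?_)
  simp only [Pi.mul_apply]
  unfold hl
  rw [enorm_mul, mul_pow]

theorem pow_le (a : ℝ≥0∞) {l : ℕ} (hl : l ≤ 2) : (a ^ l) ^ 2 ≤ 1 + a ^ 4 := by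
  rw [← pow_mul]
  rcases le_total a 1 with h | h
  · exact (pow_le_one' h _).trans le_self_add
  · exact (pow_le_pow_right₀ h (by omega)).trans le_add_self

theorem hl_mean (hEZ : S_EZ) (hLA : S_LA) {k : ℕ} {l : ℕ} (hl2 : l ≤ 2) (S : Finset (Fin k)) {y₀ : ℝ} (hy : 1 / 2 < y₀) (v : ℂ)
    (hv : y₀ ≤ v.re) :
    ∫⁻ α, ‖hl l S α v‖ₑ ^ 2 ∂(volume.restrict (cube k)) ≤
      ENNReal.ofReal ((2 + 1 / (2 * y₀ - 1)) ^ k) * (1 + ‖riemannZeta v‖ₑ ^ 4) := by
  have h1 := hS_mean hEZ hLA S (x₀ := 2 * y₀ - 1 / 2) (by linarith) v (by linarith)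
  have e1 : 2 * y₀ - 1 / 2 - 1 / 2 = 2 * y₀ - 1 := by ring
  rw [e1] at h1
  have h2 : ∀ α, ‖hl l S α v‖ₑ ^ 2 = (‖riemannZeta v‖ₑ ^ l) ^ 2 * ‖hS S α v‖ₑ ^ 2 := by
    intro α
    unfold hl
    rw [enorm_mul, mul_pow, enorm_pow]
  simp_rw [h2]
  rw [lintegral_const_mul' _ _ (by
    refine ENNReal.pow_ne_top (ENNReal.pow_ne_top enorm_ne_top)), mul_comm]
  exact mul_le_mul' h1 (pow_le _ hl2)

theorem rect (hZ7 : S_Z7) {y₀ y₁ ε : ℝ} (h0 : 1 / 2 < y₀) (h01 : y₀ ≤ y₁) (h1 : y₁ < 1) (hε : 0 < ε) :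
    ∃ K : ℝ, 0 ≤ K ∧ ∀ j : ℕ, ∫⁻ p : ℝ × ℝ in Icc y₀ y₁ ×ˢ Icc ((2 : ℝ) ^ j / 2) (4 * 2 ^ j),
      (1 + ‖riemannZeta (p.1 + p.2 * Complex.I)‖ₑ ^ 4) ≤ ENNReal.ofReal (K * (2 : ℝ) ^ (j * (1 + ε))) := by
  obtain ⟨C, hC, h⟩ := hZ7 y₀ y₁ ε h0 h01 h1 hε
  refine ⟨(4 + C) * (y₁ - y₀), mul_nonneg (by linarith) (by linarith), fun j => ?_⟩
  have hm : Measurable (fun p : ℝ × ℝ => 1 + ‖riemannZeta (p.1 + p.2 * Complex.I)‖ₑ ^ 4) := by
    refine measurable_const.add (Measurable.pow_const (Measurable.enorm (zeta_meas.comp ?_)) 4)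
    exact Continuous.measurable (by fun_prop)
  have h2j : (0 : ℝ) < 2 ^ j := by positivity
  have hpw : (2 : ℝ) ^ j ≤ (2 : ℝ) ^ (j * (1 + ε)) := by
    rw [← Real.rpow_natCast]
    refine Real.rpow_le_rpow_of_exponent_le (by norm_num) ?_
    have : (0 : ℝ) ≤ j := Nat.cast_nonneg j
    nlinarith
  have hin : ∀ x ∈ Icc y₀ y₁, ∫⁻ t in Icc ((2 : ℝ) ^ j / 2) (4 * 2 ^ j), (1 + ‖riemannZeta (x + t * Complex.I)‖ₑ ^ 4) ≤
      ENNReal.ofReal ((4 + C) * (2 : ℝ) ^ (j * (1 + ε))) := by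
    intro x hx
    rw [lintegral_add_left measurable_const, setLIntegral_const, one_mul, Real.volume_Icc]
    calc _ ≤ ENNReal.ofReal (4 * 2 ^ j - 2 ^ j / 2) + ENNReal.ofReal (C * (2 : ℝ) ^ (j * (1 + ε))) :=
          add_le_add le_rfl (h j x hx.1 hx.2)
      _ = ENNReal.ofReal ((4 * 2 ^ j - 2 ^ j / 2) + C * (2 : ℝ) ^ (j * (1 + ε))) := by
          rw [ENNReal.ofReal_add (by linarith) (by positivity)]
      _ ≤ _ := by
          apply ENNReal.ofReal_le_ofReal
          linarith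
  rw [Measure.volume_eq_prod, ← Measure.prod_restrict, lintegral_prod _ hm.aemeasurable]
  calc ∫⁻ x in Icc y₀ y₁, ∫⁻ t in Icc ((2 : ℝ) ^ j / 2) (4 * 2 ^ j), (1 + ‖riemannZeta (x + t * Complex.I)‖ₑ ^ 4)
      ≤ ∫⁻ _ in Icc y₀ y₁, ENNReal.ofReal ((4 + C) * (2 : ℝ) ^ (j * (1 + ε))) :=
        setLIntegral_mono' measurableSet_Icc hin
    _ = ENNReal.ofReal ((4 + C) * (2 : ℝ) ^ (j * (1 + ε))) * ENNReal.ofReal (y₁ - y₀) := by
        rw [setLIntegral_const, Real.volume_Icc]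
    _ = ENNReal.ofReal ((4 + C) * (y₁ - y₀) * (2 : ℝ) ^ (j * (1 + ε))) := by
        rw [← ENNReal.ofReal_mul (by positivity)]
        congr 1
        ring

theorem t_SUB2 (hEZ : S_EZ) (hLA : S_LA) (hZ7 : S_Z7) : S_SUB2 := by
  intro J k x₀ x₁ ε hJ hx₀ hx hx₁ hε
  obtain ⟨r, hr0, hr1, hr2⟩ : ∃ r : ℝ, 0 < r ∧ 1 / 2 < x₀ - r ∧ x₁ + r < 1 := by
    refine ⟨min ((x₀ - 1 / 2) / 2) ((1 - x₁) / 2), lt_min (by linarith) (by linarith), ?_, ?_⟩
    · have := min_le_left ((x₀ - 1 / 2) / 2) ((1 - x₁) / 2)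
      linarith
    · have := min_le_right ((x₀ - 1 / 2) / 2) ((1 - x₁) / 2)
      linarith
  obtain ⟨K, hK, hKj⟩ := rect hZ7 (y₀ := x₀ - r) (y₁ := x₁ + r) (ε := ε / 2) hr1 (by linarith) hr2 (by linarith)
  have h5 : 0 < 2 * (x₀ - r) - 1 := by linarith
  obtain ⟨g₁, hg₁, hg₁'⟩ := zeta_entire
  have h1 : ∀ᵐ α ∂(volume.restrict (cube k)), ∀ (l : Fin 3) (S : Finset (Fin k)), ∀ Y : ℝ, ∃ C : ℝ, 0 ≤ C ∧
      ∀ (j : ℕ) (b : ℂ), x₀ ≤ b.re → b.re ≤ x₁ → |b.im| ≤ Y →
      ∫ t in ((2 : ℝ) ^ j)..(2 ^ (j + 1)), ‖hl l S α (b + t * Complex.I)‖ ^ 2 ≤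
        C * (2 : ℝ) ^ (j * (1 - (-(ε / 2)) + ε / 2)) := by
    rw [ae_all_iff]
    intro l
    rw [ae_all_iff]
    intro S
    refine Pool.Agent.J4H6.GS6.ae_lines2 (volume.restrict (cube k)) (fun _ α => hl l S α) l x₀ x₁ (-(ε / 2)) (ε / 2) r
      ((2 + 1 / (2 * (x₀ - r) - 1)) ^ k * K) hr1 hx hr2 hr0 (by linarith) (by positivity) ?_ (fun _ => hl_meas hEZ l S)
      (fun j => ?_)
    · filter_upwards [ae01 k] with α hα _
      refine ⟨fun w => g₁ w ^ (l : ℕ) * hS S α w, (hg₁.pow _).mul (hS_diff S hα), fun w hw => ?_⟩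
      simp only
      unfold hl
      rw [hg₁' w hw, mul_pow]
      ring
    · calc ∫⁻ p : ℝ × ℝ in Icc (x₀ - r) (x₁ + r) ×ˢ Icc ((2 : ℝ) ^ j / 2) (4 * 2 ^ j),
            ∫⁻ ω, ‖hl l S ω (p.1 + p.2 * Complex.I)‖ₑ ^ 2 ∂(volume.restrict (cube k))
          ≤ ∫⁻ p : ℝ × ℝ in Icc (x₀ - r) (x₁ + r) ×ˢ Icc ((2 : ℝ) ^ j / 2) (4 * 2 ^ j),
            ENNReal.ofReal ((2 + 1 / (2 * (x₀ - r) - 1)) ^ k) * (1 + ‖riemannZeta (p.1 + p.2 * Complex.I)‖ₑ ^ 4) := by
            refine setLIntegral_mono' (measurableSet_Icc.prod measurableSet_Icc) fun p hp => ?_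
            refine hl_mean hEZ hLA (by omega) S hr1 _ ?_
            have e : ((p.1 : ℂ) + p.2 * Complex.I).re = p.1 := by simp
            rw [e]
            exact hp.1.1
        _ = ENNReal.ofReal ((2 + 1 / (2 * (x₀ - r) - 1)) ^ k) *
            ∫⁻ p : ℝ × ℝ in Icc (x₀ - r) (x₁ + r) ×ˢ Icc ((2 : ℝ) ^ j / 2) (4 * 2 ^ j),
              (1 + ‖riemannZeta (p.1 + p.2 * Complex.I)‖ₑ ^ 4) := by
            rw [lintegral_const_mul' _ _ ENNReal.ofReal_ne_top]
        _ ≤ ENNReal.ofReal ((2 + 1 / (2 * (x₀ - r) - 1)) ^ k) * ENNReal.ofReal (K * (2 : ℝ) ^ (j * (1 + ε / 2))) :=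
            mul_le_mul' le_rfl (hKj j)
        _ = _ := by
            rw [← ENNReal.ofReal_mul (by positivity), ← mul_assoc, sub_neg_eq_add]
  filter_upwards [h1, ae01 k] with α hα hα0 Y
  choose C hC0 hC using fun (l : Fin 3) (S : Finset (Fin k)) => hα l S Y
  refine ⟨2 ^ (J + k) * ∑ l ∈ Finset.range (J + 1), (J.choose l : ℝ) * ∑ S, C (Fin.ofNat 3 l) S,
    mul_nonneg (by positivity) (Finset.sum_nonneg fun l _ => mul_nonneg (by positivity) (Finset.sum_nonneg fun S _ => hC0 _ S)),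
    fun j b hb => ?_⟩
  have hne1 : ∀ t : ℝ, b + t * Complex.I ≠ 1 := by
    intro t h
    have := congrArg Complex.re h
    simp at this
    have h3 := hb.2.1
    linarith
  have hζ : Continuous fun t : ℝ => riemannZeta (b + t * Complex.I) := by
    rw [continuous_iff_continuousAt]
    intro t
    exact ContinuousAt.comp (f := fun t : ℝ => b + t * Complex.I) (differentiableAt_riemannZeta (hne1 t)).continuousAt (by fun_prop)
  have hcS : ∀ (l : ℕ) (S : Finset (Fin k)), Continuous fun t : ℝ => ‖hl l S α (b + t * Complex.I)‖ ^ 2 := fun l S =>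
    ((hζ.pow l).mul ((hS_diff S hα0).continuous.comp (by fun_prop : Continuous fun t : ℝ => b + t * Complex.I))).norm.pow 2
  have hprod : ∀ w : ℂ, ∏ i, (1 + ‖HurwitzZeta.expZeta (app J k α i : UnitAddCircle) w‖) ^ 2 =
      ((1 + ‖riemannZeta w‖) ^ 2) ^ J * ∏ i, (1 + ‖HurwitzZeta.expZeta (α i : UnitAddCircle) w‖) ^ 2 := by
    intro w
    rw [Fin.prod_univ_add]
    congr 1
    · unfold app
      simp only [Fin.append_left]
      rw [Finset.prod_const, Finset.card_univ, Fintype.card_fin]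
      congr 4
      rw [show ((0 : ℝ) : UnitAddCircle) = 0 from rfl, HurwitzZeta.expZeta_zero]
    · unfold app
      simp only [Fin.append_right]
  have hcP : Continuous fun t : ℝ => ∏ i, (1 + ‖HurwitzZeta.expZeta (app J k α i : UnitAddCircle) (b + t * Complex.I)‖) ^ 2 := by
    simp_rw [hprod]
    refine (((continuous_const.add hζ.norm).pow 2).pow J).mul (continuous_finsetProd _ fun i _ => ?_)
    refine (continuous_const.add (Continuous.norm ?_)).pow 2
    exact (HurwitzZeta.differentiable_expZeta_of_ne_zero (ne0 (hα0 i).1 (hα0 i).2)).continuous.comp (by fun_prop)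
  have hpt : ∀ t : ℝ, ∏ i, (1 + ‖HurwitzZeta.expZeta (app J k α i : UnitAddCircle) (b + t * Complex.I)‖) ^ 2 ≤
      2 ^ (J + k) * ∑ l ∈ Finset.range (J + 1), (J.choose l : ℝ) * ∑ S : Finset (Fin k), ‖hl l S α (b + t * Complex.I)‖ ^ 2 := by
    intro t
    rw [hprod]
    generalize b + t * Complex.I = w
    have e1 : (2 : ℝ) ^ k * ∑ S : Finset (Fin k), ‖hS S α w‖ ^ 2 =
        ∏ i, (2 * (1 + ‖HurwitzZeta.expZeta (α i : UnitAddCircle) w‖ ^ 2)) := by
      rw [Finset.prod_mul_distrib, Finset.prod_const, Finset.card_univ, Fintype.card_fin, Finset.prod_one_add,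
        Finset.powerset_univ]
      congr 1
      refine Finset.sum_congr rfl fun S _ => ?_
      unfold hS
      rw [norm_prod, Finset.prod_pow]
    have e2 : ∏ i, (1 + ‖HurwitzZeta.expZeta (α i : UnitAddCircle) w‖) ^ 2 ≤
        ∏ i, (2 * (1 + ‖HurwitzZeta.expZeta (α i : UnitAddCircle) w‖ ^ 2)) := by
      refine Finset.prod_le_prod (fun i _ => by positivity) fun i _ => ?_
      nlinarith [sq_nonneg (1 - ‖HurwitzZeta.expZeta (α i : UnitAddCircle) w‖)]
    have e3 : ((1 + ‖riemannZeta w‖) ^ 2) ^ J ≤ (2 * (1 + ‖riemannZeta w‖ ^ 2)) ^ J := by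
      refine pow_le_pow_left₀ (by positivity) ?_ J
      nlinarith [sq_nonneg (1 - ‖riemannZeta w‖)]
    have e4 : (2 * (1 + ‖riemannZeta w‖ ^ 2)) ^ J =
        2 ^ J * ∑ l ∈ Finset.range (J + 1), (J.choose l : ℝ) * (‖riemannZeta w‖ ^ 2) ^ l := by
      rw [mul_pow, add_comm (1 : ℝ), add_pow]
      congr 1
      refine Finset.sum_congr rfl fun l _ => ?_
      rw [one_pow, mul_one, mul_comm]
    calc _ ≤ (2 * (1 + ‖riemannZeta w‖ ^ 2)) ^ J * ∏ i, (2 * (1 + ‖HurwitzZeta.expZeta (α i : UnitAddCircle) w‖ ^ 2)) :=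
          mul_le_mul e3 e2 (Finset.prod_nonneg fun i _ => by positivity) (by positivity)
      _ = _ := by
          rw [e4, ← e1, pow_add]
          have e5 : ∀ l, ∑ S : Finset (Fin k), ‖hl l S α w‖ ^ 2 = (‖riemannZeta w‖ ^ 2) ^ l * ∑ S : Finset (Fin k), ‖hS S α w‖ ^ 2 := by
            intro l
            rw [Finset.mul_sum]
            refine Finset.sum_congr rfl fun S _ => ?_
            unfold hl
            rw [norm_mul, norm_pow, mul_pow, ← pow_mul, ← pow_mul, mul_comm l 2]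
          simp_rw [e5]
          have e6 : ∑ l ∈ Finset.range (J + 1), (J.choose l : ℝ) * ((‖riemannZeta w‖ ^ 2) ^ l * ∑ S : Finset (Fin k), ‖hS S α w‖ ^ 2) =
              (∑ l ∈ Finset.range (J + 1), (J.choose l : ℝ) * (‖riemannZeta w‖ ^ 2) ^ l) * ∑ S : Finset (Fin k), ‖hS S α w‖ ^ 2 := by
            rw [Finset.sum_mul]
            exact Finset.sum_congr rfl fun l _ => by ring
          rw [e6]
          ring
  have h2j : (2 : ℝ) ^ j ≤ 2 ^ (j + 1) := pow_le_pow_right₀ (by norm_num) (Nat.le_succ j)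
  calc ∫ t in ((2 : ℝ) ^ j)..(2 ^ (j + 1)), ∏ i, (1 + ‖HurwitzZeta.expZeta (app J k α i : UnitAddCircle) (b + t * Complex.I)‖) ^ 2
      ≤ ∫ t in ((2 : ℝ) ^ j)..(2 ^ (j + 1)), 2 ^ (J + k) * ∑ l ∈ Finset.range (J + 1), (J.choose l : ℝ) *
          ∑ S : Finset (Fin k), ‖hl l S α (b + t * Complex.I)‖ ^ 2 := by
        refine intervalIntegral.integral_mono_on h2j (hcP.intervalIntegrable _ _) ?_ fun t _ => hpt t
        exact (continuous_const.mul (continuous_finsetSum _ fun l _ => continuous_const.mul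
          (continuous_finsetSum _ fun S _ => hcS l S))).intervalIntegrable _ _
    _ = 2 ^ (J + k) * ∑ l ∈ Finset.range (J + 1), (J.choose l : ℝ) *
          ∑ S : Finset (Fin k), ∫ t in ((2 : ℝ) ^ j)..(2 ^ (j + 1)), ‖hl l S α (b + t * Complex.I)‖ ^ 2 := by
        have hi : ∀ l ∈ Finset.range (J + 1), IntervalIntegrable (fun t : ℝ => (J.choose l : ℝ) *
            ∑ S : Finset (Fin k), ‖hl l S α (b + t * Complex.I)‖ ^ 2) volume ((2 : ℝ) ^ j) (2 ^ (j + 1)) := fun l _ =>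
          (continuous_const.mul (continuous_finsetSum _ fun S _ => hcS l S)).intervalIntegrable _ _
        rw [intervalIntegral.integral_const_mul, intervalIntegral.integral_finsetSum hi]
        congr 1
        refine Finset.sum_congr rfl fun l _ => ?_
        rw [intervalIntegral.integral_const_mul, intervalIntegral.integral_finsetSum fun S _ => (hcS l S).intervalIntegrable _ _]
    _ ≤ 2 ^ (J + k) * ∑ l ∈ Finset.range (J + 1), (J.choose l : ℝ) *
          ∑ S : Finset (Fin k), C (Fin.ofNat 3 l) S * (2 : ℝ) ^ (j * (1 - (-(ε / 2)) + ε / 2)) := by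
        refine mul_le_mul_of_nonneg_left (Finset.sum_le_sum fun l hl => ?_) (by positivity)
        refine mul_le_mul_of_nonneg_left (Finset.sum_le_sum fun S _ => ?_) (by positivity)
        have h7 := hC (Fin.ofNat 3 l) S j b hb.1 hb.2.1 hb.2.2
        have h8 : ((Fin.ofNat 3 l : Fin 3) : ℕ) = l := by
          have : l < 3 := by
            have := Finset.mem_range.1 hl
            omega
          simp [Fin.ofNat, Nat.mod_eq_of_lt this]
        rwa [h8] at h7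
    _ = _ := by
        have e9 : 1 - (-(ε / 2)) + ε / 2 = 1 + ε := by ring
        rw [e9, mul_assoc, Finset.sum_mul]
        congr 1
        refine Finset.sum_congr rfl fun l _ => ?_
        rw [← Finset.sum_mul]
        ring

end

end Pool.Agent.J4H57.GS6
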